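import Pool.Agent.K3h75.ND.Stm

/-!
# ND brick EXP: expansion at a nondegenerate critical point in the special fibre
-/

set_option autoImplicit false

namespace Pool.Agent.K3h54.ND

open MvPolynomial Pool.Agent.K3h75.ND

variable {R σ : Type} [CommRing R]

/-- Step A: `f = u π ^ k` modulo the partial derivatives, up to factors outside `Q`. -/
lemma stepA {π : R} {f : MvPolynomial σ R} {Q J : Ideal (MvPolynomial σ R)} [hQ : Q.IsPrime]
    (hπQ : C π ∈ Q) (hfQ : f ∈ Q) (hJ : J = Ideal.span (Set.range fun j => pderiv j f))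
    (hJQ : J ≤ Q)
    (p1 : ∀ x ∈ Q, ∃ c, c ∉ Q ∧
      c * x ∈ Ideal.span (insert (C π) (Set.range fun j => pderiv j f)))
    (p2 : ∀ (m : ℕ) (c : MvPolynomial σ R), c ∉ Q → c * C (π ^ m) ∉ J)
    {r : ℕ} {h₀ : MvPolynomial σ R} (hh₀ : h₀ ∉ Q)
    (hr : h₀ * C (π ^ r) ∈ Ideal.span (insert f (Set.range fun j => pderiv j f))) :
    ∃ (k : ℕ) (c u : MvPolynomial σ R), 1 ≤ k ∧ k ≤ r ∧ c ∉ Q ∧ u ∉ Q ∧
      c * f - u * C (π ^ k) ∈ J := by
  have key : ∀ k : ℕ, (∃ (j : ℕ) (c u : MvPolynomial σ R), j < k ∧ c ∉ Q ∧ u ∉ Q ∧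
      c * f - u * C (π ^ j) ∈ J) ∨ ∃ c l : MvPolynomial σ R, c ∉ Q ∧ c * f - l * C (π ^ k) ∈ J := by
    intro k
    induction k with
    | zero =>
      right
      refine ⟨1, f, (Ideal.ne_top_iff_one Q).1 hQ.ne_top, ?_⟩
      rw [pow_zero, C_1, one_mul, mul_one, sub_self]
      exact J.zero_mem
    | succ k ih =>
      rcases ih with ⟨j, c, u, hj, h1, h2, h3⟩ | ⟨c, l, h1, h2⟩
      · exact Or.inl ⟨j, c, u, by omega, h1, h2, h3⟩
      · by_cases hl : l ∈ Q
        · right
          obtain ⟨c', hc', h4⟩ := p1 l hl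
          obtain ⟨a, z, hz, h5⟩ := Ideal.mem_span_insert.1 h4
          rw [← hJ] at hz
          refine ⟨c' * c, a, fun h => (hQ.mem_or_mem h).elim hc' h1, ?_⟩
          have e : c' * c * f - a * C (π ^ (k + 1)) = c' * (c * f - l * C (π ^ k)) + C (π ^ k) * z := by
            rw [pow_succ, C_mul]
            linear_combination C (π ^ k) * h5
          rw [e]
          exact J.add_mem (J.mul_mem_left _ h2) (J.mul_mem_left _ hz)
        · exact Or.inl ⟨k, c, l, by omega, h1, hl, h2⟩
  rcases key (r + 1) with ⟨k, c, u, hk, h1, h2, h3⟩ | ⟨c, l, h1, h2⟩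
  · refine ⟨k, c, u, ?_, by omega, h1, h2, h3⟩
    by_contra hcon
    have hk0 : k = 0 := by omega
    subst hk0
    rw [pow_zero, C_1, mul_one] at h3
    have h4 := Q.sub_mem (Q.mul_mem_left c hfQ) (hJQ h3)
    rw [sub_sub_cancel] at h4
    exact h2 h4
  · exfalso
    obtain ⟨a, z, hz, h5⟩ := Ideal.mem_span_insert.1 hr
    rw [← hJ] at hz
    have h6 : c * h₀ - a * l * C π ∉ Q := by
      intro h
      have h7 := Q.add_mem h (Q.mul_mem_left (a * l) hπQ)
      rw [sub_add_cancel] at h7
      exact (hQ.mem_or_mem h7).elim h1 hh₀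
    apply p2 r _ h6
    have e : (c * h₀ - a * l * C π) * C (π ^ r) = a * (c * f - l * C (π ^ (r + 1))) + c * z := by
      rw [pow_succ, C_mul]
      linear_combination c * h5
    rw [e]
    exact J.add_mem (J.mul_mem_left _ h2) (J.mul_mem_left _ hz)

theorem t_EXP : S_PAR → S_EXP := by
  intro hPAR R σ _ _ _ _ _ π hπ f Q hQ hπQ hfQ hyQ hdet r h₀ hh₀ hr
  obtain ⟨p1, p2, p3⟩ := hPAR R σ π hπ f Q hπQ hyQ hdet
  have hJQ : Ideal.span (Set.range fun j => pderiv j f) ≤ Q := by
    rw [Ideal.span_le]
    rintro _ ⟨j, rfl⟩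
    exact hyQ j
  obtain ⟨k, c, u, hk1, hkr, hc, hu, h1⟩ := stepA hπQ hfQ rfl hJQ p1 p2 hh₀ hr
  obtain ⟨l, hl⟩ := Ideal.mem_span_range_iff_exists_fun.1 h1
  have hcf : c * f = u * C (π ^ k) + ∑ j, l j * pderiv j f := by
    rw [hl]; ring
  set I : Ideal (MvPolynomial σ R) := Ideal.span (insert (C (π ^ k)) (Set.range fun j => pderiv j f)) with hI
  have hyI : ∀ j, pderiv j f ∈ I := fun j => Ideal.subset_span (Set.mem_insert_of_mem _ ⟨j, rfl⟩)
  have hπI : C (π ^ k) ∈ I := Ideal.subset_span (Set.mem_insert _ _)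
  have hcfI : c * f ∈ I := by
    rw [hcf]
    exact I.add_mem (I.mul_mem_left _ hπI) (I.sum_mem fun j _ => I.mul_mem_left _ (hyI j))
  -- the equations for the `l j`
  have hv : ∀ i, c * (hess f).mulVec l i ∈ I := by
    intro i
    have e1 := congrArg (pderiv i) hcf
    rw [map_add, map_sum, Derivation.leibniz, Derivation.leibniz, pderiv_C, smul_zero, zero_add] at e1
    simp only [Derivation.leibniz, smul_eq_mul] at e1
    rw [Finset.sum_add_distrib] at e1
    have e2 : (hess f).mulVec l i = ∑ j, l j * pderiv i (pderiv j f) := by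
      change ∑ j, hess f i j * l j = _
      apply Finset.sum_congr rfl
      intro j _
      change pderiv i (pderiv j f) * l j = _
      rw [mul_comm]
    rw [e2]
    have e3 : c * ∑ j, l j * pderiv i (pderiv j f) =
        c * c * pderiv i f + pderiv i c * (c * f) - c * pderiv i u * C (π ^ k) -
          c * ∑ j, pderiv j f * pderiv i (l j) := by
      linear_combination -c * e1
    rw [e3]
    refine I.sub_mem (I.sub_mem (I.add_mem (I.mul_mem_left _ (hyI i)) (I.mul_mem_left _ hcfI))
      (I.mul_mem_left _ hπI)) (I.mul_mem_left _ (I.sum_mem fun j _ => I.mul_mem_right _ (hyI j)))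
  have hadj : ∀ j, c * (hess f).det * l j ∈ I := by
    intro j
    have e1 : (hess f).adjugate.mulVec ((hess f).mulVec l) = (hess f).det • l := by
      rw [Matrix.mulVec_mulVec, Matrix.adjugate_mul, Matrix.smul_mulVec, Matrix.one_mulVec]
    have e2 := congrFun e1 j
    rw [Pi.smul_apply, smul_eq_mul] at e2
    have e3 : c * (hess f).det * l j = ∑ i, (hess f).adjugate j i * (c * (hess f).mulVec l i) := by
      rw [mul_assoc, ← e2]
      generalize (hess f).mulVec l = v
      change c * ∑ i, (hess f).adjugate j i * v i = _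
      rw [Finset.mul_sum]
      apply Finset.sum_congr rfl
      intro i _
      ring
    rw [e3]
    exact I.sum_mem fun i _ => I.mul_mem_left _ (hv i)
  choose a z hz hz' using fun j => Ideal.mem_span_insert.1 (hadj j)
  choose b hb using fun j => Ideal.mem_span_range_iff_exists_fun.1 (hz j)
  obtain ⟨D, hD⟩ : ∃ D, D = (hess f).det := ⟨_, rfl⟩
  rw [← hD] at hdet hz'
  obtain ⟨h, hh⟩ : ∃ h : MvPolynomial σ R, h = c * D * c := ⟨_, rfl⟩
  obtain ⟨u', hu'⟩ : ∃ u' : MvPolynomial σ R, u' = c * D * u + ∑ j, a j * pderiv j f := ⟨_, rfl⟩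
  have hcD : c * D ∉ Q := fun h => (hQ.mem_or_mem h).elim hc hdet
  have hhQ : h ∉ Q := by
    rw [hh]
    exact fun h => (hQ.mem_or_mem h).elim hcD hc
  have huQ : u' ∉ Q := by
    intro h2
    have h3 : ∑ j, a j * pderiv j f ∈ Q := Q.sum_mem fun j _ => Q.mul_mem_left _ (hyQ j)
    have h4 := Q.sub_mem h2 h3
    rw [hu', add_sub_cancel_right] at h4
    exact (hQ.mem_or_mem h4).elim hcD hu
  have hEq : h * f = C (π ^ k) * u' + ∑ i, ∑ j, b i j * pderiv i f * pderiv j f := by
    have e1 : ∑ i, ∑ j, b i j * pderiv i f * pderiv j f = ∑ i, z i * pderiv i f := by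
      apply Finset.sum_congr rfl
      intro i _
      rw [← hb i, Finset.sum_mul]
      apply Finset.sum_congr rfl
      intro j _
      ring
    have e2 : ∑ i, c * D * l i * pderiv i f = C (π ^ k) * ∑ j, a j * pderiv j f + ∑ i, z i * pderiv i f := by
      rw [Finset.mul_sum, ← Finset.sum_add_distrib]
      apply Finset.sum_congr rfl
      intro i _
      rw [hz' i]
      ring
    have e3 : ∑ i, c * D * l i * pderiv i f = c * D * ∑ i, l i * pderiv i f := by
      rw [Finset.mul_sum]
      apply Finset.sum_congr rfl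
      intro i _
      ring
    rw [e1, hh, hu']
    linear_combination c * D * hcf + e2 - e3
  refine ⟨k, h, u', b, hk1, hkr, hhQ, huQ, ?_, hEq⟩
  -- the polar matrix
  have hy2 : ∀ (x : MvPolynomial σ R) (i j : σ), x * pderiv i f * pderiv j f ∈ Q ^ 2 := by
    intro x i j
    rw [mul_assoc, pow_two]
    exact Ideal.mul_mem_left _ _ (Ideal.mul_mem_mul (hyQ i) (hyQ j))
  have hfin : ∀ m j, (if m = j then h else 0) - (hess f * polar b) m j ∈ Q := by
    intro m
    have e1 := congrArg (pderiv m) hEq
    rw [map_add, map_sum, Derivation.leibniz, Derivation.leibniz, pderiv_C, smul_zero, add_zero] at e1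
    simp only [map_sum, Derivation.leibniz, smul_eq_mul] at e1
    have e2 : ∑ i, ∑ j, (b i j * pderiv i f * pderiv m (pderiv j f) +
          pderiv j f * (b i j * pderiv m (pderiv i f) + pderiv i f * pderiv m (b i j))) =
        (∑ i, ∑ j, pderiv m (b i j) * pderiv i f * pderiv j f) +
        (∑ i, ∑ j, b i j * pderiv m (pderiv i f) * pderiv j f) +
        ∑ i, ∑ j, b i j * pderiv i f * pderiv m (pderiv j f) := by
      rw [← Finset.sum_add_distrib, ← Finset.sum_add_distrib]
      apply Finset.sum_congr rfl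
      intro i _
      rw [← Finset.sum_add_distrib, ← Finset.sum_add_distrib]
      apply Finset.sum_congr rfl
      intro j _
      ring
    rw [e2] at e1
    have e3 : ∑ j, h * ((if m = j then h else 0) - (hess f * polar b) m j) * pderiv j f =
        h * (h * pderiv m f - (∑ i, ∑ j, b i j * pderiv m (pderiv i f) * pderiv j f) -
          ∑ i, ∑ j, b i j * pderiv i f * pderiv m (pderiv j f)) := by
      have f1 : ∑ j, (if m = j then h else 0) * pderiv j f = h * pderiv m f := by
        simp only [ite_mul, zero_mul, Finset.sum_ite_eq, Finset.mem_univ, if_true]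
      have f2 : ∑ j, (hess f * polar b) m j * pderiv j f =
          (∑ i, ∑ j, b i j * pderiv m (pderiv i f) * pderiv j f) +
          ∑ i, ∑ j, b i j * pderiv i f * pderiv m (pderiv j f) := by
        rw [Finset.sum_comm (f := fun i j => b i j * pderiv m (pderiv i f) * pderiv j f),
          ← Finset.sum_add_distrib]
        apply Finset.sum_congr rfl
        intro j _
        rw [Matrix.mul_apply, Finset.sum_mul, ← Finset.sum_add_distrib]
        apply Finset.sum_congr rfl
        intro i _
        unfold hess polar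
        rw [Matrix.of_apply, Matrix.of_apply]
        ring
      have f3 : ∑ j, h * ((if m = j then h else 0) - (hess f * polar b) m j) * pderiv j f =
          h * (∑ j, (if m = j then h else 0) * pderiv j f - ∑ j, (hess f * polar b) m j * pderiv j f) := by
        rw [← Finset.sum_sub_distrib, Finset.mul_sum]
        apply Finset.sum_congr rfl
        intro j _
        ring
      rw [f3, f1, f2]
      ring
    have e4 : C (π ^ k) = C (π ^ (k - 1)) * (C π : MvPolynomial σ R) := by
      rw [← C_mul, ← pow_succ, Nat.sub_add_cancel hk1]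
    have e5 := (p3 (fun j => h * ((if m = j then h else 0) - (hess f * polar b) m j))
      (C (π ^ (k - 1)) * (u' * pderiv m h - h * pderiv m u')) (by
        rw [e3]
        have e6 : C (π ^ (k - 1)) * (u' * pderiv m h - h * pderiv m u') * C π +
            h * (h * pderiv m f - (∑ i, ∑ j, b i j * pderiv m (pderiv i f) * pderiv j f) -
          ∑ i, ∑ j, b i j * pderiv i f * pderiv m (pderiv j f)) =
          h * (∑ i, ∑ j, pderiv m (b i j) * pderiv i f * pderiv j f) -
            pderiv m h * ∑ i, ∑ j, b i j * pderiv i f * pderiv j f := by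
          linear_combination h * e1 - pderiv m h * hEq - (u' * pderiv m h - h * pderiv m u') * e4
        rw [e6]
        refine Ideal.sub_mem _ (Ideal.mul_mem_left _ _ (Ideal.sum_mem _ fun i _ => Ideal.sum_mem _ fun j _ => hy2 _ _ _))
          (Ideal.mul_mem_left _ _ (Ideal.sum_mem _ fun i _ => Ideal.sum_mem _ fun j _ => hy2 _ _ _)))).2
    intro j
    exact (hQ.mem_or_mem (e5 j)).resolve_left hhQ
  intro hpol
  have g1 : (Ideal.Quotient.mk Q).mapMatrix (hess f * polar b) = (Ideal.Quotient.mk Q h) • (1 : Matrix σ σ _) := by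
    ext m j
    rw [RingHom.mapMatrix_apply, Matrix.map_apply, Matrix.smul_apply, Matrix.one_apply, smul_eq_mul, mul_ite,
      mul_one, mul_zero]
    have g2 := Ideal.Quotient.eq.2 (hfin m j)
    rw [← g2]
    split_ifs
    · rfl
    · exact map_zero _
  have g3 := congrArg Matrix.det g1
  rw [← RingHom.map_det, Matrix.det_mul, Matrix.det_smul, Matrix.det_one, mul_one, map_mul,
    Ideal.Quotient.eq_zero_iff_mem.2 hpol, mul_zero] at g3
  have g4 : Ideal.Quotient.mk Q h ≠ 0 := fun g => hhQ (Ideal.Quotient.eq_zero_iff_mem.1 g)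
  exact pow_ne_zero _ g4 g3.symm

end Pool.Agent.K3h54.ND
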